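import Pool.Agent.Run7.h520.LW.I

/-! # Piece EMB: transport along embeddings -/

set_option autoImplicit false
set_option linter.all false

namespace Run7.h882.LW
open Classical Run7.h520.LW

section

variable {V W Y : Type} {G : Str V} {H : Str W} {J : Str Y} {S T Z : Finset V} {f : V → W}

/-- the image of a line -/
def lm (f : V → W) (l : ℕ × List V) : ℕ × List W := (l.1, l.2.map f)

theorem emb_mono (h : Emb G H S f) (hT : T ⊆ S) : Emb G H T f :=
  ⟨fun a ha b hb => h.inj a (hT ha) b (hT hb), fun a ha => h.pt a (hT ha),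
    fun a ha b hb => h.R a (hT ha) b (hT hb),
    fun a ha l hl => h.on a (hT ha) l fun y hy => hT (hl y hy)⟩

theorem emb_comp [DecidableEq W] {g : W → Y} (h : Emb G H S f) (h' : Emb H J (S.image f) g) :
    Emb G J S (g ∘ f) := by
  have m : ∀ a ∈ S, f a ∈ S.image f := fun a ha => Finset.mem_image_of_mem f ha
  refine ⟨fun a ha b hb hab => h.inj a ha b hb (h'.inj _ (m a ha) _ (m b hb) hab),
    fun a ha => (h'.pt _ (m a ha)).trans (h.pt a ha),
    fun a ha b hb => (h'.R _ (m a ha) _ (m b hb)).trans (h.R a ha b hb), fun a ha l hl => ?_⟩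
  have h1 := h'.on (f a) (m a ha) (l.1, l.2.map f) (by
    intro y hy
    obtain ⟨x, hx, rfl⟩ := List.mem_map.1 hy
    exact m x (hl x hx))
  rw [List.map_map] at h1
  exact h1.trans (h.on a ha l hl)

theorem emb_congr {g : V → W} (h : Emb G H S f) (hg : ∀ a ∈ S, g a = f a) : Emb G H S g :=
  ⟨fun a ha b hb => by rw [hg a ha, hg b hb]; exact h.inj a ha b hb,
    fun a ha => by rw [hg a ha]; exact h.pt a ha,
    fun a ha b hb => by rw [hg a ha, hg b hb]; exact h.R a ha b hb,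
    fun a ha l hl => by
      rw [hg a ha, List.map_congr_left fun x hx => hg x (hl x hx)]; exact h.on a ha l hl⟩

theorem emb_refl (G : Str V) (S : Finset V) : Emb G G S id :=
  ⟨fun _ _ _ _ h => h, fun _ _ => Iff.rfl, fun _ _ _ _ => Iff.rfl,
    fun _ _ l _ => by rw [List.map_id]; exact Iff.rfl⟩

theorem emb_inv [DecidableEq V] [DecidableEq W] [Nonempty V] (h : Emb G H S f) :
    ∃ g : W → V, (∀ a ∈ S, g (f a) = a) ∧
    Emb H G (S.image f) g ∧ (S.image f).image g = S := by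
  set g : W → V := fun w => if hw : ∃ a ∈ S, f a = w then hw.choose else Classical.arbitrary V
    with hg
  have hgf : ∀ a ∈ S, g (f a) = a := by
    intro a ha
    have hw : ∃ b ∈ S, f b = f a := ⟨a, ha, rfl⟩
    simp only [hg, dif_pos hw]
    exact h.inj _ hw.choose_spec.1 _ ha hw.choose_spec.2
  have hfg : ∀ b ∈ S.image f, f (g b) = b := by
    intro b hb
    obtain ⟨a, ha, rfl⟩ := Finset.mem_image.1 hb
    rw [hgf a ha]
  refine ⟨g, hgf, ⟨?_, ?_, ?_, ?_⟩, ?_⟩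
  · intro a ha b hb hab
    obtain ⟨a, ha', rfl⟩ := Finset.mem_image.1 ha
    obtain ⟨b, hb', rfl⟩ := Finset.mem_image.1 hb
    rw [hgf a ha', hgf b hb'] at hab
    rw [hab]
  · intro a ha
    obtain ⟨a, ha', rfl⟩ := Finset.mem_image.1 ha
    rw [hgf a ha', h.pt a ha']
  · intro a ha b hb
    obtain ⟨a, ha', rfl⟩ := Finset.mem_image.1 ha
    obtain ⟨b, hb', rfl⟩ := Finset.mem_image.1 hb
    rw [hgf a ha', hgf b hb', h.R a ha' b hb']
  · intro a ha l hl
    obtain ⟨a, ha', rfl⟩ := Finset.mem_image.1 ha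
    have h1 := h.on a ha' (l.1, l.2.map g) (by
      intro y hy
      obtain ⟨x, hx, rfl⟩ := List.mem_map.1 hy
      obtain ⟨b, hb, rfl⟩ := Finset.mem_image.1 (hl x hx)
      rw [hgf b hb]; exact hb)
    have h2 : (l.2.map g).map f = l.2 := by
      rw [List.map_map]
      conv_rhs => rw [← List.map_id l.2]
      exact List.map_congr_left fun x hx => hfg x (hl x hx)
    rw [hgf a ha']
    have h3 : (l.1, (l.2.map g).map f) = l := by rw [h2]
    rw [show ((l.1, l.2.map g).1, (l.1, l.2.map g).2.map f) = l from h3] at h1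
    exact h1.symm
  · ext x
    simp only [Finset.mem_image, exists_exists_and_eq_and]
    constructor
    · rintro ⟨a, ha, rfl⟩
      rw [hgf a ha]; exact ha
    · intro hx
      exact ⟨x, hx, hgf x hx⟩

theorem exists_image_of_subset [DecidableEq W] {T : Finset W} (hT : T ⊆ S.image f) :
    ∃ T' ⊆ S, T'.image f = T := by
  refine ⟨S.filter fun a => f a ∈ T, Finset.filter_subset _ _, ?_⟩
  ext w
  rw [Finset.mem_image]
  constructor
  · rintro ⟨a, ha, rfl⟩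
    exact (Finset.mem_filter.1 ha).2
  · intro hw
    obtain ⟨a, ha, rfl⟩ := Finset.mem_image.1 (hT hw)
    exact ⟨a, Finset.mem_filter.2 ⟨ha, hw⟩, rfl⟩

/-! ### lines -/

theorem list_map_inj (h : ∀ x ∈ S, ∀ y ∈ S, f x = f y → x = y) :
    ∀ (l l' : List V), (∀ x ∈ l, x ∈ S) → (∀ x ∈ l', x ∈ S) → l.map f = l'.map f → l = l' := by
  intro l
  induction l with
  | nil =>
    intro l' _ _ he
    rw [List.map_nil] at he
    exact (List.map_eq_nil_iff.1 he.symm).symm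
  | cons a l ih =>
    intro l' hl hl' he
    cases l' with
    | nil => simp at he
    | cons b l' =>
      rw [List.map_cons, List.map_cons, List.cons.injEq] at he
      rw [h a (hl a List.mem_cons_self) b (hl' b List.mem_cons_self) he.1,
        ih l' (fun x hx => hl x (List.mem_cons_of_mem _ hx))
          (fun x hx => hl' x (List.mem_cons_of_mem _ hx)) he.2]

theorem lm_inj (h : ∀ x ∈ S, ∀ y ∈ S, f x = f y → x = y) {l l' : ℕ × List V}
    (hl : ∀ x ∈ l.2, x ∈ S) (hl' : ∀ x ∈ l'.2, x ∈ S) (he : lm f l = lm f l') : l = l' := by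
  unfold lm at he
  rw [Prod.mk.injEq] at he
  exact Prod.ext he.1 (list_map_inj h _ _ hl hl' he.2)

theorem exists_list_map [DecidableEq W] (L : List W) (hL : ∀ x ∈ L, x ∈ S.image f) :
    ∃ l : List V, (∀ x ∈ l, x ∈ S) ∧ l.map f = L := by
  induction L with
  | nil => exact ⟨[], by simp, rfl⟩
  | cons b L ih =>
    obtain ⟨l, hl, rfl⟩ := ih fun x hx => hL x (List.mem_cons_of_mem _ hx)
    obtain ⟨a, ha, rfl⟩ := Finset.mem_image.1 (hL b List.mem_cons_self)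
    refine ⟨a :: l, ?_, rfl⟩
    intro x hx
    rcases List.mem_cons.1 hx with rfl | hx
    · exact ha
    · exact hl x hx

theorem nodup_map (h : ∀ x ∈ S, ∀ y ∈ S, f x = f y → x = y) {l : List V} (hl : ∀ x ∈ l, x ∈ S) :
    (l.map f).Nodup ↔ l.Nodup := by
  constructor
  · exact fun h => h.of_map f
  · intro hn
    exact (List.nodup_map_iff_inj_on hn).2 fun x hx y hy => h x (hl x hx) y (hl y hy)

theorem lm_mem_lin [DecidableEq W] (h : ∀ x ∈ S, ∀ y ∈ S, f x = f y → x = y) (hT : T ⊆ S)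
    {l : ℕ × List V} (hl : ∀ x ∈ l.2, x ∈ S) : lm f l ∈ lin (T.image f) ↔ l ∈ lin T := by
  rw [mem_lin, mem_lin]
  unfold IsLn lm
  simp only [List.length_map, nodup_map h hl, List.mem_map]
  refine and_congr_right fun _ => and_congr_right fun _ => ⟨fun h1 x hx => ?_, ?_⟩
  · have h2 := h1 (f x) ⟨x, hx, rfl⟩
    obtain ⟨y, hy, he⟩ := Finset.mem_image.1 h2
    exact h y (hT hy) x (hl x hx) he ▸ hy
  · rintro h1 _ ⟨x, hx, rfl⟩
    exact Finset.mem_image_of_mem f (h1 x hx)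

theorem lin_image [DecidableEq W] (h : ∀ x ∈ S, ∀ y ∈ S, f x = f y → x = y) (hT : T ⊆ S)
    (L : ℕ × List W) : L ∈ lin (T.image f) ↔ ∃ l ∈ lin T, lm f l = L := by
  constructor
  · intro hL
    obtain ⟨l, hl, he⟩ := exists_list_map L.2 (mem_lin.1 hL).2.2
    refine ⟨(L.1, l), ?_, ?_⟩
    · rw [← lm_mem_lin (f := f) h hT (fun x hx => hT (hl x hx))]
      unfold lm
      rw [he]; exact hL
    · unfold lm; rw [he]
  · rintro ⟨l, hl, rfl⟩
    exact (lm_mem_lin h hT fun x hx => hT ((mem_lin.1 hl).2.2 x hx)).2 hl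

theorem emb_nl [DecidableEq W] (h : Emb G H S f) (hT : T ⊆ S) {x : V} (hx : x ∈ S) (j : ℕ) :
    H.nl j (f x) (T.image f) = G.nl j x T := by
  unfold Str.nl
  symm
  refine Finset.card_bij (fun l _ => lm f l) ?_ ?_ ?_
  · intro l hl
    rw [Finset.mem_filter] at hl ⊢
    have h1 : ∀ y ∈ l.2, y ∈ S := fun y hy => hT ((mem_lin.1 hl.1).2.2 y hy)
    exact ⟨(lm_mem_lin h.inj hT h1).2 hl.1, hl.2.1, (h.on x hx l h1).2 hl.2.2⟩
  · intro l hl l' hl' he
    rw [Finset.mem_filter] at hl hl'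
    exact lm_inj h.inj (fun y hy => hT ((mem_lin.1 hl.1).2.2 y hy))
      (fun y hy => hT ((mem_lin.1 hl'.1).2.2 y hy)) he
  · intro L hL
    rw [Finset.mem_filter] at hL
    obtain ⟨l, hl, rfl⟩ := (lin_image h.inj hT L).1 hL.1
    have h1 : ∀ y ∈ l.2, y ∈ S := fun y hy => hT ((mem_lin.1 hl).2.2 y hy)
    exact ⟨l, Finset.mem_filter.2 ⟨hl, hL.2.1, (h.on x hx l h1).1 hL.2.2⟩, rfl⟩

theorem emb_pts [DecidableEq W] (h : Emb G H S f) (hT : T ⊆ S) (l : ℕ × List V)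
    (hl : ∀ x ∈ l.2, x ∈ S) : H.pts (l.1, l.2.map f) (T.image f) = (G.pts l T).image f := by
  ext w
  rw [Str.mem_pts, Finset.mem_image, Finset.mem_image]
  constructor
  · rintro ⟨⟨x, hx, rfl⟩, h2⟩
    exact ⟨x, Str.mem_pts.2 ⟨hx, (h.on x (hT hx) l hl).1 h2⟩, rfl⟩
  · rintro ⟨x, hx, rfl⟩
    rw [Str.mem_pts] at hx
    exact ⟨⟨x, hx.1, rfl⟩, (h.on x (hT hx.1) l hl).2 hx.2⟩

theorem emb_card [DecidableEq W] (h : Emb G H S f) (hT : T ⊆ S) : (T.image f).card = T.card :=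
  Finset.card_image_of_injOn fun a ha b hb hab => h.inj a (hT ha) b (hT hb) hab

theorem ed_inj (h : Emb G H S f) (hT : T ⊆ S) {e e' : V × V} (he : e ∈ G.ed T) (he' : e' ∈ G.ed T)
    (h1 : Prod.map f f e = Prod.map f f e') : e = e' := by
  rw [Str.mem_ed] at he he'
  have h2 := congrArg Prod.fst h1
  have h3 := congrArg Prod.snd h1
  exact Prod.ext (h.inj _ (hT he.1) _ (hT he'.1) h2) (h.inj _ (hT he.2.1) _ (hT he'.2.1) h3)

theorem mem_ed_image [DecidableEq W] (h : Emb G H S f) (hT : T ⊆ S) (E : W × W) :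
    E ∈ H.ed (T.image f) ↔ ∃ e ∈ G.ed T, Prod.map f f e = E := by
  obtain ⟨E1, E2⟩ := E
  rw [Str.mem_ed]
  constructor
  · rintro ⟨h1, h2, h3⟩
    obtain ⟨x, hx, rfl⟩ := Finset.mem_image.1 h1
    obtain ⟨y, hy, rfl⟩ := Finset.mem_image.1 h2
    exact ⟨(x, y), Str.mem_ed.2 ⟨hx, hy, (h.R x (hT hx) y (hT hy)).1 h3⟩, rfl⟩
  · rintro ⟨⟨x, y⟩, h1, h2⟩
    rw [Str.mem_ed] at h1
    rw [Prod.map_apply, Prod.mk.injEq] at h2
    obtain ⟨rfl, rfl⟩ := h2
    exact ⟨Finset.mem_image_of_mem f h1.1, Finset.mem_image_of_mem f h1.2.1,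
      (h.R x (hT h1.1) y (hT h1.2.1)).2 h1.2.2⟩

theorem emb_ed_card [DecidableEq W] (h : Emb G H S f) (hT : T ⊆ S) :
    (H.ed (T.image f)).card = (G.ed T).card := by
  symm
  refine Finset.card_bij (fun e _ => Prod.map f f e) ?_ ?_ ?_
  · intro e he
    exact (mem_ed_image h hT _).2 ⟨e, he, rfl⟩
  · intro e he e' he' h1
    exact ed_inj h hT he he' h1
  · intro E hE
    obtain ⟨e, he, h1⟩ := (mem_ed_image h hT _).1 hE
    exact ⟨e, he, h1⟩

theorem emb_ic_sum [DecidableEq W] (h : Emb G H S f) (hT : T ⊆ S) (F : ℕ → ℝ) :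
    ∑ p ∈ H.ic (T.image f), F p.2.1 = ∑ p ∈ G.ic T, F p.2.1 := by
  symm
  refine Finset.sum_bij (fun p _ => (f p.1, lm f p.2)) ?_ ?_ ?_ ?_
  · rintro ⟨x, l⟩ hp
    rw [Str.mem_ic] at hp ⊢
    have h1 : ∀ y ∈ l.2, y ∈ S := fun y hy => hT ((mem_lin.1 hp.2.1).2.2 y hy)
    exact ⟨Finset.mem_image_of_mem f hp.1, (lm_mem_lin h.inj hT h1).2 hp.2.1,
      (h.on x (hT hp.1) l h1).2 hp.2.2⟩
  · rintro ⟨x, l⟩ hp ⟨x', l'⟩ hp' he
    rw [Str.mem_ic] at hp hp'
    rw [Prod.mk.injEq] at he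
    have h1 : ∀ y ∈ l.2, y ∈ S := fun y hy => hT ((mem_lin.1 hp.2.1).2.2 y hy)
    have h2 : ∀ y ∈ l'.2, y ∈ S := fun y hy => hT ((mem_lin.1 hp'.2.1).2.2 y hy)
    exact Prod.ext (h.inj _ (hT hp.1) _ (hT hp'.1) he.1) (lm_inj h.inj h1 h2 he.2)
  · rintro ⟨w, L⟩ hp
    rw [Str.mem_ic] at hp
    obtain ⟨x, hx, he⟩ := Finset.mem_image.1 hp.1
    obtain ⟨l, hl, he'⟩ := (lin_image h.inj hT L).1 hp.2.1
    dsimp only at he he' hp
    subst he; subst he'
    have h1 : ∀ y ∈ l.2, y ∈ S := fun y hy => hT ((mem_lin.1 hl).2.2 y hy)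
    exact ⟨(x, l), Str.mem_ic.2 ⟨hx, hl, (h.on x (hT hx) l h1).1 hp.2.2⟩, rfl⟩
  · rintro ⟨x, l⟩ hp
    rfl

theorem emb_fl_sum [DecidableEq W] (h : Emb G H S f) (hT : T ⊆ S) (F : ℕ → ℝ) :
    ∑ p ∈ H.fl (T.image f), F p.2.1 = ∑ p ∈ G.fl T, F p.2.1 := by
  symm
  refine Finset.sum_bij (fun p _ => (Prod.map f f p.1, lm f p.2)) ?_ ?_ ?_ ?_
  · rintro ⟨⟨x, x'⟩, l⟩ hp
    rw [Str.mem_fl] at hp ⊢
    have h1 : ∀ y ∈ l.2, y ∈ S := fun y hy => hT ((mem_lin.1 hp.2.1).2.2 y hy)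
    have h2 := Str.mem_ed.1 hp.1
    exact ⟨(mem_ed_image h hT _).2 ⟨_, hp.1, rfl⟩, (lm_mem_lin h.inj hT h1).2 hp.2.1,
      (h.on x (hT h2.1) l h1).2 hp.2.2.1, (h.on x' (hT h2.2.1) l h1).2 hp.2.2.2⟩
  · rintro ⟨e, l⟩ hp ⟨e', l'⟩ hp' he
    rw [Str.mem_fl] at hp hp'
    rw [Prod.mk.injEq] at he
    have h1 : ∀ y ∈ l.2, y ∈ S := fun y hy => hT ((mem_lin.1 hp.2.1).2.2 y hy)
    have h2 : ∀ y ∈ l'.2, y ∈ S := fun y hy => hT ((mem_lin.1 hp'.2.1).2.2 y hy)
    exact Prod.ext (ed_inj h hT hp.1 hp'.1 he.1) (lm_inj h.inj h1 h2 he.2)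
  · rintro ⟨E, L⟩ hp
    rw [Str.mem_fl] at hp
    obtain ⟨⟨x, y⟩, hx, he⟩ := (mem_ed_image h hT _).1 hp.1
    obtain ⟨l, hl, he'⟩ := (lin_image h.inj hT L).1 hp.2.1
    dsimp only at he he' hp
    subst he; subst he'
    have h1 : ∀ y ∈ l.2, y ∈ S := fun y hy => hT ((mem_lin.1 hl).2.2 y hy)
    have h2 := Str.mem_ed.1 hx
    exact ⟨((x, y), l), Str.mem_fl.2 ⟨hx, hl, (h.on x (hT h2.1) l h1).1 hp.2.2.1,
      (h.on y (hT h2.2.1) l h1).1 hp.2.2.2⟩, rfl⟩
  · rintro ⟨x, l⟩ hp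
    rfl

theorem emb_dl [DecidableEq W] (h : Emb G H S f) (hT : T ⊆ S) : H.dl (T.image f) = G.dl T := by
  unfold Str.dl
  rw [emb_card h hT, emb_ed_card h hT, emb_ic_sum h hT, emb_fl_sum h hT fun j => q (j + 1)]

theorem mem_of_image_mem [DecidableEq W] (h : Emb G H S f) (hT : T ⊆ S) {x : V} (hx : x ∈ S)
    (h1 : f x ∈ T.image f) : x ∈ T := by
  obtain ⟨y, hy, he⟩ := Finset.mem_image.1 h1
  exact h.inj y (hT hy) x hx he ▸ hy

theorem emb_pc [DecidableEq W] (h : Emb G H S f) (hT : T ⊆ S) :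
    H.PC (T.image f) ↑(S.image f) ↔ G.PC T ↑S := by
  constructor
  · intro hh
    refine ⟨Finset.coe_subset.2 hT, ?_, ?_⟩
    · intro l hl hN x hx
      have hl' : ∀ x ∈ l.2, x ∈ S := fun x hx => Finset.mem_coe.1 (hl x hx)
      refine mem_of_image_mem h hT (hl' x hx) ?_
      refine hh.g1 (l.1, l.2.map f) ?_ ?_ (f x) (List.mem_map_of_mem hx)
      · intro w hw
        obtain ⟨y, hy, rfl⟩ := List.mem_map.1 hw
        exact Finset.mem_coe.2 (Finset.mem_image_of_mem f (hl' y hy))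
      · rw [emb_pts h hT l hl', Finset.card_image_of_injOn]
        · exact hN
        · intro a ha b hb hab
          exact h.inj a (hT (Str.mem_pts.1 (Finset.mem_coe.1 ha)).1) b
            (hT (Str.mem_pts.1 (Finset.mem_coe.1 hb)).1) hab
    · intro p hp hpn j
      rw [← emb_nl h hT (Finset.mem_coe.1 hp) j]
      exact hh.g2 (f p) (Finset.mem_coe.2 (Finset.mem_image_of_mem f (Finset.mem_coe.1 hp)))
        (fun h1 => hpn (mem_of_image_mem h hT (Finset.mem_coe.1 hp) h1)) j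
  · intro hh
    refine ⟨Finset.coe_subset.2 (Finset.image_subset_image hT), ?_, ?_⟩
    · intro L hL hN w hw
      obtain ⟨l, hl, he⟩ := exists_list_map L.2 fun x hx => Finset.mem_coe.1 (hL x hx)
      have hLe : L = (L.1, l.map f) := by rw [he]
      rw [hLe, emb_pts h hT (L.1, l) hl, Finset.card_image_of_injOn] at hN
      · rw [← he] at hw
        obtain ⟨x, hx, rfl⟩ := List.mem_map.1 hw
        exact Finset.mem_image_of_mem f
          (hh.g1 (L.1, l) (fun y hy => Finset.mem_coe.2 (hl y hy)) hN x hx)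
      · intro a ha b hb hab
        exact h.inj a (hT (Str.mem_pts.1 (Finset.mem_coe.1 ha)).1) b
          (hT (Str.mem_pts.1 (Finset.mem_coe.1 hb)).1) hab
    · intro w hw hwn j
      obtain ⟨x, hx, rfl⟩ := Finset.mem_image.1 (Finset.mem_coe.1 hw)
      rw [emb_nl h hT hx j]
      exact hh.g2 x (Finset.mem_coe.2 hx) (fun h1 => hwn (Finset.mem_image_of_mem f h1)) j

theorem emb_cl [DecidableEq W] (h : Emb G H S f) (hT : T ⊆ S) :
    H.Cl (T.image f) ↑(S.image f) ↔ G.Cl T ↑S := by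
  constructor
  · intro hh
    refine ⟨(emb_pc h hT).1 hh.1, fun B hB hlt => ?_⟩
    have hBS : B ⊆ S := Finset.coe_subset.1 hB.sub
    have := hh.2 (B.image f) ((emb_pc h hBS).2 hB) ⟨Finset.image_subset_image hlt.1, fun hc => by
      apply hlt.2
      intro b hb
      obtain ⟨t, ht, he⟩ := Finset.mem_image.1 (hc (Finset.mem_image_of_mem f hb))
      exact h.inj t (hT ht) b (hBS hb) he ▸ ht⟩
    rwa [emb_dl h hT, emb_dl h hBS] at this
  · intro hh
    refine ⟨(emb_pc h hT).2 hh.1, fun B hB hlt => ?_⟩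
    obtain ⟨B', hB'S, rfl⟩ := exists_image_of_subset (Finset.coe_subset.1 hB.sub)
    rw [emb_dl h hT, emb_dl h hB'S]
    apply hh.2 B' ((emb_pc h hB'S).1 hB)
    refine ⟨?_, fun hc => hlt.2 (Finset.image_subset_image hc)⟩
    intro t ht
    obtain ⟨b, hb, he⟩ := Finset.mem_image.1 (hlt.1 (Finset.mem_image_of_mem f ht))
    exact h.inj b (hB'S hb) t (hT ht) he ▸ hb

theorem emb_c1_aux [DecidableEq W] (h : Emb G H S f) {S' Y' : Finset V} (hS : S' ⊆ S) (hY : Y' ⊆ S)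
    (j : ℕ) : (∑ p ∈ Y'.image f, (2 * (H.nl j p (S'.image f) : ℤ) - 3) ≤ K j * (S'.image f).card) ↔
      (∑ p ∈ Y', (2 * (G.nl j p S' : ℤ) - 3) ≤ K j * S'.card) := by
  rw [emb_card h hS, Finset.sum_image fun a ha b hb hab => h.inj a (hY ha) b (hY hb) hab]
  rw [Finset.sum_congr rfl fun x hx => by rw [emb_nl h hS (hY hx) j]]

theorem emb_c1_iff [DecidableEq W] (h : Emb G H S f) : H.C1 ↑(S.image f) ↔ G.C1 ↑S := by
  constructor
  · intro hh j S' Y' hS hY
    have hS' := Finset.coe_subset.1 hS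
    have hY' := Finset.coe_subset.1 hY
    rw [← emb_c1_aux h hS' hY' j]
    exact hh j _ _ (Finset.coe_subset.2 (Finset.image_subset_image hS'))
      (Finset.coe_subset.2 (Finset.image_subset_image hY'))
  · intro hh j S' Y' hS hY
    obtain ⟨S', hS', rfl⟩ := exists_image_of_subset (Finset.coe_subset.1 hS)
    obtain ⟨Y', hY', rfl⟩ := exists_image_of_subset (Finset.coe_subset.1 hY)
    rw [emb_c1_aux h hS' hY' j]
    exact hh j _ _ (Finset.coe_subset.2 hS') (Finset.coe_subset.2 hY')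

theorem emb_cls [DecidableEq W] (h : Emb G H S f) : H.Cls ↑(S.image f) ↔ G.Cls ↑S := by
  constructor
  · intro hh
    refine ⟨(emb_c1_iff h).1 hh.c1, fun X hX => ?_⟩
    have hXS := Finset.coe_subset.1 hX.sub
    have := hh.c2 (X.image f) ((emb_pc h hXS).2 hX)
    rwa [emb_card h hXS, emb_dl h hXS] at this
  · intro hh
    refine ⟨(emb_c1_iff h).2 hh.c1, fun X hX => ?_⟩
    obtain ⟨X', hX', rfl⟩ := exists_image_of_subset (Finset.coe_subset.1 hX.sub)
    rw [emb_card h hX', emb_dl h hX']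
    exact hh.c2 X' ((emb_pc h hX').1 hX)

end

theorem EMB : S_EMB where
  mono := emb_mono
  comp := emb_comp
  congr := emb_congr
  refl := emb_refl
  inv := emb_inv
  nl := fun h hT x hx j => emb_nl h hT hx j
  pts := emb_pts
  dl := emb_dl
  pc := emb_pc
  cl := emb_cl
  c1 := fun h => (emb_c1_iff h).2
  cls := emb_cls

end Run7.h882.LW

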